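import Pool.Agent.H324.RP.Final

/-!
# The rigid synchrony conjecture, in a local form

Let `x` be a `T`-periodic orbit of an admissible `C¹` vector field `f` of a coupled cell network for
which `1` is a simple Floquet multiplier (for instance a hyperbolic one), and let `J` be an open
set of times which meets `(0, T)`. Two nodes are *rigidly synchronous on `J`* if their states are
equal at all times in `J` on all nearby periodic orbits of all small smooth admissible
perturbations of `f`. We prove that all pairs of nodes which are rigidly synchronous on `J` belong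
to one balanced equivalence relation, whose pairs are synchronous on `x` for ALL times. In
particular, if all the synchronies of `x` are rigid, if only on `J`, then the synchrony pattern of
`x` is balanced. For `J = ℝ` this is the rigid synchrony conjecture.

Idea of the proof. Among all small perturbations `(f', x', t')`, `t' ∈ J`, choose one with the
smallest number of coincidences between the states `x'_c(t')` and of nodes at rest. Then the
coincidences at this point are locally constant in `f'`, `x'`, `t'`. A perturbation of `f'` by a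
bump function around the input state of a node `c` at time `t'` changes the orbit by the time
integral of the bump only, but it changes the velocity of `c` by a fixed amount; so nodes with the
same state have inputs which match at time `t'` (a dimension count treats the nodes at rest).
Hence the coincidences at `t'` form a balanced relation `R`, and the synchrony space of `R` is
invariant under the flow, so that they persist for all times.

The proof uses the lemmas on local maximisers in `Pool/Agent/H324/RP/LMax.lean` and the library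
`Pool/Agent/H848R3/RI`, where also the definitions are: `Network`, `InputIso`, `Ph`, `st`,
`Admissible`, `Tup`, `tup` are in `Pool/Agent/H848R3/RI/Net.lean`, `SmAdm` is in
`Pool/Agent/H848R3/RI/Bump.lean`, `IsFund` is in `Pool/Agent/H848R3/RI/Lin.lean`, `PeriodicOrbit`
is in `Pool/Agent/H848R3/RI/Hyp.lean`, `Nondegenerate` is in `Pool/Agent/H324/RP/Final.lean`. An
orbit is nondegenerate if `1` is a simple Floquet multiplier, so every hyperbolic orbit is
nondegenerate.
-/

set_option autoImplicit false

open Topology Filter Set Pool.Agent.H848R3.RI Pool.Agent.H324.RP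

namespace Pool.Agent.Results.MP_e1010f_an.LocalRigidSynchrony

/-- The synchrony pattern of a curve `x`: nodes `c` and `d` are related if `x_c(t) = x_d(t)` for
all `t`. -/
def Pattern {N : Network} {V : N.SType → Type} (x : ℝ → Ph N V) (c d : N.Node) : Prop :=
  ∀ t, st (x t) c = st (x t) d

/-- The nodes `c` and `d` are rigidly synchronous, at the times in `J`, on the `T`-periodic orbit
`x` of the admissible field `f`: there is `δ > 0` such that for every smooth admissible `h` with
`‖h‖ < δ`, `‖Dh‖ < δ` everywhere, `x'_c(t) = x'_d(t)` for all `t ∈ J` on the nearby periodic orbit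
`x'` of `f + h` (every periodic orbit `x'` of `f + h` of period `T'`, `|T' - T| < δ`, that is
`δ`-close to `x` on `[0, T]`). -/
def RigidOn {N : Network} {V : N.SType → Type} [∀ τ, NormedAddCommGroup (V τ)]
    [∀ τ, NormedSpace ℝ (V τ)] (J : Set ℝ) (f : Ph N V → Ph N V) (x : ℝ → Ph N V) (T : ℝ)
    (c d : N.Node) : Prop :=
  ∃ δ > 0, ∀ h : Ph N V → Ph N V, SmAdm h → (∀ z, ‖h z‖ < δ ∧ ‖fderiv ℝ h z‖ < δ) →
    ∀ (x' : ℝ → Ph N V) (T' : ℝ), PeriodicOrbit (fun z => f z + h z) x' T' → |T' - T| < δ →
      (∀ t ∈ Set.Icc 0 T, ‖x' t - x t‖ < δ) → ∀ t ∈ J, st (x' t) c = st (x' t) d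

/-- The relation `R` on the nodes is balanced: if `R c d`, then there is an input isomorphism
`β : I(c) → I(d)` (in particular, `c` and `d` have the same type) such that the tails of `e` and of
`β e` are related by `R` for all `e` in `I(c)`. -/
def Balanced (N : Network) (R : N.Node → N.Node → Prop) : Prop :=
  ∀ c d, R c d → ∃ β : InputIso N c d, ∀ e : N.In c, R (N.tail e.1) (N.tail (β.toEquiv e).1)

/-- A maximiser of the number of separated pairs among all small deformations, with the time
restricted to an interval `(a, b)`. -/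
lemma exists_lmx {N : Network} {V : N.SType → Type} [∀ τ, NormedAddCommGroup (V τ)]
    [∀ τ, NormedSpace ℝ (V τ)] {f : Ph N V → Ph N V} {x : ℝ → Ph N V} {T δ a b : ℝ}
    (h : Cls f x T δ f x T) (hab : a < b) (ha : 0 ≤ a) (hb : b + δ ≤ T) :
    ∃ f₁ x₁ T₁ t₀ η₀, t₀ ∈ Ioo a b ∧ LMx f x T δ f₁ x₁ T₁ t₀ η₀ 0 := by
  classical
  let P : ℕ → Prop := fun n => ∃ f' x' T' t', Cls f x T δ f' x' T' ∧ t' ∈ Ioo a b ∧
    Pool.Agent.H848R3.RI.cnt f' (x' t') = n
  have hP : P (Pool.Agent.H848R3.RI.cnt f (x ((a + b) / 2))) :=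
    ⟨f, x, T, (a + b) / 2, h, ⟨by linarith, by linarith⟩, rfl⟩
  obtain ⟨f', x', T', t', h2, h3, h4⟩ :=
    Nat.findGreatest_spec (P := P) (Pool.Agent.H848R3.RI.cnt_le f (x ((a + b) / 2))) hP
  refine ⟨f', x', T', t', min (t' - a) (b - t'), h3, h2, ⟨by linarith [h3.1], ?_⟩,
    lt_min (by linarith [h3.1]) (by linarith [h3.2]), fun f'' x'' T'' t'' h5 h6 _ _ _ => ?_⟩
  · have h7 := (abs_lt.1 h2.per).1
    linarith [h3.2]
  · rw [h4]
    have h8 := lt_min_iff.1 h6
    have h9 := abs_lt.1 h8.1
    have h10 := abs_lt.1 h8.2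
    exact Nat.le_findGreatest (Pool.Agent.H848R3.RI.cnt_le _ _)
      ⟨f'', x'', T'', t'', h5, ⟨by linarith, by linarith⟩, rfl⟩

/-- **Rigid synchrony, local form**: let `J` be an open set of times which meets `(0, T)`. For
every network, every admissible `C¹` vector field `f` and every nondegenerate (for instance
hyperbolic) `T`-periodic orbit `x` of `f`, all pairs of nodes that are rigidly synchronous on `J`
belong to one balanced equivalence relation, whose pairs are synchronous on `x` for all times; and
if all pairs of nodes of the synchrony pattern of `x` are rigidly synchronous on `J`, then the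
synchrony pattern of `x` is balanced. -/
theorem result (N : Network) (V : N.SType → Type) [∀ τ, NormedAddCommGroup (V τ)]
    [∀ τ, NormedSpace ℝ (V τ)] [∀ τ, FiniteDimensional ℝ (V τ)] [∀ τ, Nontrivial (V τ)]
    (f : Ph N V → Ph N V) (hf : Admissible f) (x : ℝ → Ph N V) (T : ℝ)
    (hx : PeriodicOrbit f x T) (hh : Nondegenerate f x T)
    (J : Set ℝ) (hJ : IsOpen J) (hJT : (J ∩ Ioo 0 T).Nonempty) :
    (∃ R : N.Node → N.Node → Prop, Equivalence R ∧ Balanced N R ∧
      (∀ c d, RigidOn J f x T c d → R c d) ∧ (∀ c d, R c d → Pattern x c d)) ∧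
    ((∀ c d, Pattern x c d → RigidOn J f x T c d) → Balanced N (Pattern x)) := by
  classical
  have key : ∃ R : N.Node → N.Node → Prop, Equivalence R ∧ Balanced N R ∧
      (∀ c d, RigidOn J f x T c d → R c d) ∧ (∀ c d, R c d → Pattern x c d) := by
    have hp : PerOrb f x T := hx.perOrb hf.smooth
    have hnd : NDeg f x T := hh.nDeg hf.smooth hp
    have hT : 0 < T := hp.pos
    -- a common `δ` for all rigid pairs
    obtain ⟨δ, hδ, hall⟩ : ∃ δ > 0, ∀ c d, RigidOn J f x T c d →
        ∀ h : Ph N V → Ph N V, SmAdm h → (∀ z, ‖h z‖ < δ ∧ ‖fderiv ℝ h z‖ < δ) →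
        ∀ (x' : ℝ → Ph N V) (T' : ℝ), PeriodicOrbit (fun z => f z + h z) x' T' → |T' - T| < δ →
        (∀ t ∈ Set.Icc 0 T, ‖x' t - x t‖ < δ) → ∀ t ∈ J, st (x' t) c = st (x' t) d := by
      have h1 : ∀ p : N.Node × N.Node, ∃ δ > 0, RigidOn J f x T p.1 p.2 →
        ∀ h : Ph N V → Ph N V, SmAdm h → (∀ z, ‖h z‖ < δ ∧ ‖fderiv ℝ h z‖ < δ) →
        ∀ (x' : ℝ → Ph N V) (T' : ℝ), PeriodicOrbit (fun z => f z + h z) x' T' → |T' - T| < δ →
        (∀ t ∈ Set.Icc 0 T, ‖x' t - x t‖ < δ) → ∀ t ∈ J, st (x' t) p.1 = st (x' t) p.2 := by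
        intro p
        by_cases hr : RigidOn J f x T p.1 p.2
        · obtain ⟨δ, h1, h2⟩ := hr
          exact ⟨δ, h1, fun _ => h2⟩
        · exact ⟨1, one_pos, fun h => absurd h hr⟩
      choose δ hδ hδ2 using h1
      rcases isEmpty_or_nonempty (N.Node × N.Node) with he | hne
      · exact ⟨1, one_pos, fun a b => (he.false (a, b)).elim⟩
      · obtain ⟨p₀, hp₀⟩ := Finite.exists_min δ
        exact ⟨δ p₀, hδ p₀, fun c d hr h h1 h2 x' T' h3 h4 h5 => hδ2 (c, d) hr h h1
          (fun z => ⟨(h2 z).1.trans_le (hp₀ (c, d)), (h2 z).2.trans_le (hp₀ (c, d))⟩) x' T' h3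
          (h4.trans_le (hp₀ (c, d))) fun t ht => (h5 t ht).trans_le (hp₀ (c, d))⟩
    -- an interval of times
    obtain ⟨s, hsJ, hs⟩ := hJT
    obtain ⟨r, hr, hball⟩ := Metric.isOpen_iff.1 hJ s hsJ
    obtain ⟨a, b, hab, ha, hb, habJ⟩ : ∃ a b : ℝ, a < b ∧ 0 ≤ a ∧ b < T ∧ Ioo a b ⊆ J := by
      refine ⟨max 0 (s - r), min ((s + T) / 2) (s + r), ?_, le_max_left _ _,
        (min_le_left _ _).trans_lt (by linarith [hs.2]), fun t ht => hball ?_⟩
      · rw [max_lt_iff, lt_min_iff, lt_min_iff]
        exact ⟨⟨by linarith [hs.1], by linarith [hs.1]⟩, by linarith [hs.2], by linarith⟩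
      · rw [Metric.mem_ball, Real.dist_eq, abs_lt]
        constructor
        · linarith [(le_max_right 0 (s - r)).trans_lt ht.1]
        · linarith [ht.2.trans_le (min_le_right ((s + T) / 2) (s + r))]
    obtain ⟨η, hη, hsep⟩ := sep_all (ρ := 0) hp.continuous hp.per hp.pos le_rfl one_pos
    obtain ⟨δ₁, hδ₁⟩ : ∃ δ₁, δ₁ = min (min δ η) (T - b) := ⟨_, rfl⟩
    have hδ₁0 : 0 < δ₁ := by rw [hδ₁]; exact lt_min (lt_min hδ hη) (by linarith)
    have hle1 : δ₁ ≤ δ := by rw [hδ₁]; exact (min_le_left _ _).trans (min_le_left _ _)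
    have hle2 : δ₁ ≤ η := by rw [hδ₁]; exact (min_le_left _ _).trans (min_le_right _ _)
    have hle3 : δ₁ ≤ T - b := by rw [hδ₁]; exact min_le_right _ _
    have hC : Cls f x T δ₁ f x T :=
      { adm := hf
        dif := by
          have h0 : (fun z => f z - f z) = fun _ : Ph N V => (0 : Ph N V) := by
            funext z; exact sub_self _
          rw [h0]; exact SmAdm.zero
        near := ⟨0, hδ₁0, fun z => by simp⟩
        orb := hp
        nd := hnd
        per := by simpa using hδ₁0
        close := fun t _ => by simpa using hδ₁0 }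
    obtain ⟨f₁, x₁, T₁, t₀, η₀, ht₀, hM⟩ := exists_lmx hC hab ha (by linarith)
    have hmatch : ∀ c d, st (x₁ t₀) c = st (x₁ t₀) d → Match (x₁ t₀) c d := fun c d h =>
      match_all hp.continuous hM hf.smooth c d h
    refine ⟨fun c d => st (x₁ t₀) c = st (x₁ t₀) d,
      ⟨fun _ => rfl, fun h => h.symm, fun h h' => h.trans h'⟩, hmatch, ?_, ?_⟩
    · intro c d hrig
      have hc := hM.cls
      have he : (fun z => f z + (f₁ z - f z)) = f₁ := by funext z; abel
      obtain ⟨δ', h1, h2⟩ := hc.near
      refine hall c d hrig (fun z => f₁ z - f z) hc.dif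
        (fun z => ⟨(h2 z).1.trans_lt (h1.trans_le hle1), ?_⟩) x₁ T₁
        (by rw [he]; exact hc.orb.periodicOrbit) (hc.per.trans_le hle1)
        (fun t ht => (hc.close t ht).trans_le hle1) t₀ (habJ ht₀)
      have d1 := (hc.adm.smooth.differentiable one_ne_zero z).hasFDerivAt
      have d2 := (hf.smooth.differentiable one_ne_zero z).hasFDerivAt
      have d3 : fderiv ℝ (fun z => f₁ z - f z) z = fderiv ℝ f₁ z - fderiv ℝ f z :=
        (d1.sub d2).fderiv
      rw [d3]
      exact (h2 z).2.trans_lt (h1.trans_le hle1)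
    · intro c d hcd t
      have h1 := hsep x₁ T₁ hM.cls.orb.per (hM.cls.per.trans_le hle2)
        (fun t ht => (hM.cls.close t ht).trans_le hle2) c d (fun t => by
          rw [zero_mul, add_zero]
          exact invariant hM.cls.adm hM.cls.orb.sol hM.cls.orb.per hM.cls.orb.pos hmatch c d hcd t)
          t
      rwa [zero_mul, add_zero] at h1
  refine ⟨key, fun hrig c d hcd => ?_⟩
  obtain ⟨R, -, hb, h1, h2⟩ := key
  obtain ⟨β, hβ⟩ := hb c d (h1 c d (hrig c d hcd))
  exact ⟨β, fun e => h2 _ _ (hβ e)⟩

end Pool.Agent.Results.MP_e1010f_an.LocalRigidSynchrony
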